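import Pool.Agent.TH137.OS.One
import Pool.Agent.TH137.OS.Exact
import Pool.Agent.H4R2.Ham

/-! # One-site regions: bond dimension `d`, independent of the accuracy -/

set_option autoImplicit false

open scoped BigOperators Topology Matrix ComplexOrder
open Finset Filter
open Pool.Agent.H4R2 Pool.Agent.TH137.OS

namespace Pool.Agent.Results.MP_0f69bf_mp.OneSiteRegions

instance uniq (x₀ : ℤ × ℤ) : Unique (({x₀} : Finset (ℤ × ℤ))) where
  default := ⟨x₀, Finset.mem_singleton_self x₀⟩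
  uniq := fun y => Subtype.ext (Finset.mem_singleton.1 y.2)

lemma contract_eq {m d L : ℕ} [NeZero L] (φ : Fin m → Fin d → ℂ) :
    contract (ghz φ) L = fun s : Site L → Fin d => ∑ k : Fin m, ∏ x, φ k (s x) := by
  funext s; exact contract_ghz φ s

lemma card_site (L : ℕ) [NeZero L] : Fintype.card (Site L) = L * L := by
  rw [Fintype.card_prod, ZMod.card]

lemma conj_const {d : ℕ} {x₀ : ℤ × ℤ} (a : ({x₀} : Finset (ℤ × ℤ)) → Fin d) :
    (fun _ => a default) = a := by
  funext y; rw [Unique.eq_default y]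

lemma entry_le_traceNorm {d : ℕ} (x₀ : ℤ × ℤ)
    (X : Matrix (({x₀} : Finset (ℤ × ℤ)) → Fin d) (({x₀} : Finset (ℤ × ℤ)) → Fin d) ℂ) (δ : ℝ)
    (hδ : 0 ≤ δ) (h : ∀ a b, ‖X a b‖ ≤ δ) : traceNorm X ≤ (d : ℝ) ^ 2 * δ := by
  refine (traceNorm_le X δ hδ h).trans (le_of_eq ?_)
  simp

/-- The estimate for the superposition of product states on the torus. -/
lemma main_est {d m : ℕ} (x₀ : ℤ × ℤ) (hm : 1 ≤ m) (φ : Fin m → Fin d → ℂ) (c : ℝ)
    (hc0 : 0 ≤ c) (hc1 : c < 1) (h1 : ∀ k, Gm φ k k = 1) (h2 : ∀ k l, k ≠ l → ‖Gm φ k l‖ ≤ c)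
    (η : ℝ) (hη1 : η ≤ 1 / 2) (L : ℕ) [NeZero L]
    (hη : (m : ℝ) ^ 2 * c ^ (L * L - 1) ≤ η) :
    contract (ghz φ) L ≠ 0 ∧ ∀ a b, ‖redState {x₀} (contract (ghz φ) L) a b -
      (m : ℂ)⁻¹ * ∑ k, φ k (a default) * (starRingEnd ℂ) (φ k (b default))‖ ≤ 4 * η := by
  have hL : 0 < L := Nat.pos_of_ne_zero (NeZero.ne L)
  obtain ⟨e1, e2⟩ := asym (V := Site L) hm (fun x : ({x₀} : Finset (ℤ × ℤ)) => toTorus L x) φ c hc0
    hc1.le h1 h2 (by rw [card_site]; nlinarith) η (by rw [card_site]; exact hη) hη1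
  rw [← contract_eq] at e1 e2
  refine ⟨?_, fun a b => ?_⟩
  · intro h0
    rw [h0] at e1
    simp [normSq] at e1
    linarith
  · unfold redState
    rw [Matrix.smul_apply, smul_eq_mul]
    exact e2 a b

lemma exists_large (C : ℝ) (c : ℝ) (hc0 : 0 ≤ c) (hc1 : c < 1) (η : ℝ) (hη : 0 < η) :
    ∃ L₀ : ℕ, ∀ L : ℕ, L₀ ≤ L → C * c ^ (L * L - 1) ≤ η := by
  have h1 : Tendsto (fun n : ℕ => C * c ^ n) atTop (𝓝 0) := by
    have := (tendsto_pow_atTop_nhds_zero_of_lt_one hc0 hc1).const_mul C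
    simpa using this
  obtain ⟨n0, hn0⟩ := (h1.eventually (gt_mem_nhds hη)).exists_forall_of_atTop
  refine ⟨n0 + 2, fun L hL => (hn0 (L * L - 1) ?_).le⟩
  have : L ≤ L * L - 1 := by
    have : L * 2 ≤ L * L := Nat.mul_le_mul_left L (by omega)
    omega
  omega

/-- Arbitrary unit vectors: uniform version. -/
lemma uniform (d : ℕ) (hd : 2 ≤ d) (x₀ : ℤ × ℤ) (ε : ℝ) (hε : 0 < ε) :
    ∃ L₀ : ℕ, ∀ (L : ℕ) [NeZero L] (ψ : (Site L → Fin d) → ℂ), normSq ψ = 1 →
      ∃ A : Tensor d d, ∀ (L' : ℕ) [NeZero L'], L₀ ≤ L' → contract A L' ≠ 0 ∧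
        traceNorm (redState {x₀} ψ - redState {x₀} (contract A L')) ≤ ε := by
  have hdR : (0 : ℝ) < d := by exact_mod_cast (by omega : 0 < d)
  have hd2 : (1 : ℝ) ≤ (d : ℝ) ^ 2 := by
    have : (1 : ℝ) ≤ d := by exact_mod_cast (by omega : 1 ≤ d)
    nlinarith
  set ε' := ε / (d : ℝ) ^ 2 with hε'
  have hε'0 : 0 < ε' := by positivity
  set δ := min 1 (ε' / 4) with hδ
  have hδ0 : 0 < δ := lt_min one_pos (by positivity)
  have hδ1 : δ ≤ 1 := min_le_left _ _
  have hδ2 : δ ≤ ε' / 4 := min_le_right _ _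
  set η := min (1 / 2) (ε' / 8) with hη
  have hη0 : 0 < η := lt_min (by norm_num) (by positivity)
  have hη1 : η ≤ 1 / 2 := min_le_left _ _
  have hη2 : η ≤ ε' / 8 := min_le_right _ _
  obtain ⟨c, hc0, hc1, hc⟩ := exists_decomp d hd δ hδ0 hδ1
  obtain ⟨L₀, hL₀⟩ := exists_large ((d : ℝ) ^ 2) c hc0 hc1 η hη0
  refine ⟨L₀, fun L _ ψ hψ => ?_⟩
  set j : ({x₀} : Finset (ℤ × ℤ)) → Site L := fun x => toTorus L x with hj
  obtain ⟨φ, h1, h2, h3⟩ := hc (Pm j ψ) (Pm_posSemidef (by omega) j ψ)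
    (by rw [Pm_trace, hψ]; simp)
  refine ⟨ghz φ, fun L' _ hL' => ?_⟩
  obtain ⟨e1, e2⟩ := main_est x₀ (by omega : 1 ≤ d) φ c hc0 hc1 h1 h2 η hη1 L' (hL₀ L' hL')
  refine ⟨e1, ?_⟩
  have hent : ∀ a b, ‖(redState {x₀} ψ - redState {x₀} (contract (ghz φ) L')) a b‖ ≤ ε' := by
    intro a b
    rw [Matrix.sub_apply]
    have hP : redState {x₀} ψ a b = Pm j ψ (a default) (b default) := by
      unfold redState Pm
      rw [Matrix.smul_apply, hψ, conj_const, conj_const]
      simp [hj]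
    have hPn : ‖Pm j ψ (a default) (b default)‖ ≤ 1 := by
      unfold Pm
      have := rdm_bound j ψ (fun _ => a default) (fun _ => b default)
      rw [hψ] at this
      exact this
    have h4 := e2 a b
    rw [h3, inv_mul_cancel_left₀ (by exact_mod_cast hdR.ne')] at h4
    set X := redState {x₀} (contract (ghz φ) L') a b
    set p := Pm j ψ (a default) (b default)
    set t : ℂ := (1 - (δ : ℂ)) * p + (δ / d) * (if a default = b default then 1 else 0) with ht
    rw [hP]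
    have h5 : ‖p - t‖ ≤ 2 * δ := by
      have e : p - t = (δ : ℂ) * p - (δ / d) * (if a default = b default then 1 else 0) := by
        rw [ht]; ring
      rw [e]
      refine (norm_sub_le _ _).trans ?_
      rw [norm_mul, norm_mul, Complex.norm_real, Real.norm_of_nonneg hδ0.le, norm_div,
        Complex.norm_real, Real.norm_of_nonneg hδ0.le, Complex.norm_natCast]
      have h6 : ‖(if a default = b default then (1 : ℂ) else 0)‖ ≤ 1 := by
        split_ifs <;> simp
      have h7 : δ / d ≤ δ := by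
        apply div_le_self hδ0.le
        exact_mod_cast (by omega : 1 ≤ d)
      have h8 : δ / d * ‖(if a default = b default then (1 : ℂ) else 0)‖ ≤ δ * 1 :=
        mul_le_mul h7 h6 (norm_nonneg _) hδ0.le
      have h9 : δ * ‖p‖ ≤ δ * 1 := mul_le_mul_of_nonneg_left hPn hδ0.le
      linarith
    calc ‖p - X‖ = ‖(p - t) - (X - t)‖ := by congr 1; ring
      _ ≤ ‖p - t‖ + ‖X - t‖ := norm_sub_le _ _
      _ ≤ 2 * δ + 4 * η := add_le_add h5 h4
      _ ≤ ε' := by linarith
  refine (entry_le_traceNorm x₀ _ ε' hε'0.le hent).trans (le_of_eq ?_)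
  rw [hε']; field_simp

/-- Local approximation on one-site regions with bond dimension `d`. -/
theorem result (d : ℕ) (hd : 2 ≤ d) (x₀ : ℤ × ℤ) :
    (∀ ε : ℝ, 0 < ε → ∃ L₀ : ℕ, ∀ (B : Finset (ℤ × ℤ)) (h : Matrix (B → Fin d) (B → Fin d) ℂ)
      (ψ : ∀ (L : ℕ) [NeZero L], (Site L → Fin d) → ℂ), h.IsHermitian → GappedFamily B h ψ →
      ∃ L₁ : ℕ, ∀ (L : ℕ) [NeZero L], L₁ ≤ L → ∃ A : Tensor d d,
        ∀ (L' : ℕ) [NeZero L'], L₀ ≤ L' → contract A L' ≠ 0 ∧
          traceNorm (redState {x₀} (ψ L) - redState {x₀} (contract A L')) ≤ ε) ∧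
    (∀ (B : Finset (ℤ × ℤ)) (h : Matrix (B → Fin d) (B → Fin d) ℂ)
      (ψ : ∀ (L : ℕ) [NeZero L], (Site L → Fin d) → ℂ), h.IsHermitian → GappedFamily B h ψ →
      ∀ ρ : Matrix (({x₀} : Finset (ℤ × ℤ)) → Fin d) (({x₀} : Finset (ℤ × ℤ)) → Fin d) ℂ,
        Tendsto (fun n : ℕ => redState {x₀} (ψ (n + 1))) atTop (𝓝 ρ) →
        ∃ D : ℕ, D ≤ d ∧ ∃ A : Tensor d D,
          (∃ L₁ : ℕ, ∀ (L : ℕ) [NeZero L], L₁ ≤ L → contract A L ≠ 0) ∧
          Tendsto (fun n : ℕ => traceNorm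
            (redState {x₀} (ψ (n + 1)) - redState {x₀} (contract A (n + 1)))) atTop (𝓝 0)) := by
  refine ⟨fun ε hε => ?_, ?_⟩
  · obtain ⟨L₀, hL₀⟩ := uniform d hd x₀ ε hε
    refine ⟨L₀, fun B h ψ _ hgap => ?_⟩
    obtain ⟨Δ, _, L₁, hL₁⟩ := hgap
    exact ⟨L₁, fun L _ hL => hL₀ L (ψ L) (hL₁ L hL).1⟩
  · intro B h ψ _ hgap ρ hρ
    obtain ⟨Δ, _, L₁, hL₁⟩ := hgap
    -- the limit as a matrix indexed by the symbols
    let j : ∀ n : ℕ, ({x₀} : Finset (ℤ × ℤ)) → Site (n + 1) := fun n x => toTorus (n + 1) x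
    let P : Matrix (Fin d) (Fin d) ℂ := fun a b => ρ (fun _ => a) (fun _ => b)
    have hent : ∀ a b, Tendsto (fun n : ℕ => redState {x₀} (ψ (n + 1)) a b) atTop (𝓝 (ρ a b)) := by
      intro a b
      exact (tendsto_pi_nhds.mp ((tendsto_pi_nhds.mp hρ) a)) b
    have hPn : ∀ a b, Tendsto (fun n : ℕ => Pm (j n) (ψ (n + 1)) a b) atTop (𝓝 (P a b)) := by
      intro a b
      refine (hent (fun _ => a) (fun _ => b)).congr' ?_
      filter_upwards [eventually_ge_atTop L₁] with n hn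
      unfold redState Pm
      rw [Matrix.smul_apply, (hL₁ (n + 1) (by omega)).1]
      simp [j]
    have hherm : P.IsHermitian := by
      ext a b
      rw [Matrix.conjTranspose_apply]
      have h1 := (Complex.continuous_conj.tendsto _).comp (hPn b a)
      refine tendsto_nhds_unique h1 ((hPn a b).congr fun n => ?_)
      have := (Pm_posSemidef (by omega : 0 < d) (j n) (ψ (n + 1))).1
      have h2 := congrFun (congrFun this a) b
      rw [Matrix.conjTranspose_apply] at h2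
      exact h2.symm
    have hpsd : P.PosSemidef := by
      refine Matrix.PosSemidef.of_dotProduct_mulVec_nonneg hherm fun x => ?_
      have h1 : Tendsto (fun n : ℕ => star x ⬝ᵥ (Pm (j n) (ψ (n + 1)) *ᵥ x)) atTop
          (𝓝 (star x ⬝ᵥ (P *ᵥ x))) := by
        unfold dotProduct Matrix.mulVec dotProduct
        refine tendsto_finsetSum _ fun a _ => ?_
        refine Tendsto.const_mul _ ?_
        refine tendsto_finsetSum _ fun b _ => ?_
        exact (hPn a b).mul_const _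
      exact ge_of_tendsto' h1 fun n =>
        (Pm_posSemidef (by omega : 0 < d) (j n) (ψ (n + 1))).dotProduct_mulVec_nonneg x
    have htr : P.trace = 1 := by
      have h1 : Tendsto (fun n : ℕ => (Pm (j n) (ψ (n + 1))).trace) atTop (𝓝 P.trace) := by
        unfold Matrix.trace
        refine tendsto_finsetSum _ fun a _ => ?_
        exact hPn a a
      refine tendsto_nhds_unique h1 (tendsto_const_nhds.congr' ?_)
      filter_upwards [eventually_ge_atTop L₁] with n hn
      rw [Pm_trace, (hL₁ (n + 1) (by omega)).1]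
      simp
    obtain ⟨r, hr1, hrd, c, hc0, hc1, φ, h1, h2, h3⟩ := exists_exact d P hpsd htr
    have hrC : (r : ℂ) ≠ 0 := by exact_mod_cast (by omega : r ≠ 0)
    refine ⟨r, hrd, ghz φ, ?_, ?_⟩
    · obtain ⟨L₂, hL₂⟩ := exists_large ((r : ℝ) ^ 2) c hc0 hc1 (1 / 2) (by norm_num)
      exact ⟨L₂, fun L _ hL => (main_est x₀ hr1 φ c hc0 hc1 h1 h2 (1 / 2) le_rfl L (hL₂ L hL)).1⟩
    · have hconv : ∀ a b, Tendsto (fun n : ℕ => redState {x₀} (contract (ghz φ) (n + 1)) a b)
          atTop (𝓝 (ρ a b)) := by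
        intro a b
        rw [Metric.tendsto_atTop]
        intro ε hε
        have hη : 0 < min (1 / 2) (ε / 8) := lt_min (by norm_num) (by positivity)
        obtain ⟨L₂, hL₂⟩ := exists_large ((r : ℝ) ^ 2) c hc0 hc1 _ hη
        refine ⟨L₂, fun n hn => ?_⟩
        have h4 := (main_est x₀ hr1 φ c hc0 hc1 h1 h2 _ (min_le_left _ _) (n + 1)
          (hL₂ (n + 1) (by omega))).2 a b
        rw [h3, inv_mul_cancel_left₀ hrC] at h4
        have h5 : P (a default) (b default) = ρ a b := by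
          simp only [P]
          rw [conj_const, conj_const]
        rw [h5] at h4
        rw [dist_eq_norm]
        refine lt_of_le_of_lt h4 ?_
        have := min_le_right (1 / 2) (ε / 8)
        linarith
      have hdiff : ∀ a b, Tendsto (fun n : ℕ => ‖(redState {x₀} (ψ (n + 1)) -
          redState {x₀} (contract (ghz φ) (n + 1))) a b‖) atTop (𝓝 0) := by
        intro a b
        have := ((hent a b).sub (hconv a b)).norm
        simpa using this
      have hsum : Tendsto (fun n : ℕ => (d : ℝ) ^ 2 * ∑ a, ∑ b, ‖(redState {x₀} (ψ (n + 1)) -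
          redState {x₀} (contract (ghz φ) (n + 1))) a b‖) atTop (𝓝 0) := by
        have h4 : Tendsto (fun n : ℕ => ∑ a, ∑ b, ‖(redState {x₀} (ψ (n + 1)) -
            redState {x₀} (contract (ghz φ) (n + 1))) a b‖) atTop
            (𝓝 (∑ _a : (({x₀} : Finset (ℤ × ℤ)) → Fin d),
              ∑ _b : (({x₀} : Finset (ℤ × ℤ)) → Fin d), (0 : ℝ))) :=
          tendsto_finsetSum _ fun a _ => tendsto_finsetSum _ fun b _ => hdiff a b
        have := h4.const_mul ((d : ℝ) ^ 2)
        simpa using this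
      refine squeeze_zero (fun n => ?_) (fun n => ?_) hsum
      · exact Finset.sum_nonneg fun i _ => Real.sqrt_nonneg _
      · refine entry_le_traceNorm x₀ _ _ (by positivity) fun a b => ?_
        refine le_trans ?_ (Finset.single_le_sum (f := fun a => ∑ b, ‖(redState {x₀} (ψ (n + 1)) -
          redState {x₀} (contract (ghz φ) (n + 1))) a b‖) (fun a _ => by positivity)
          (Finset.mem_univ a))
        exact Finset.single_le_sum (f := fun b => ‖(redState {x₀} (ψ (n + 1)) -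
          redState {x₀} (contract (ghz φ) (n + 1))) a b‖) (fun b _ => by positivity)
          (Finset.mem_univ b)

end Pool.Agent.Results.MP_0f69bf_mp.OneSiteRegions
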