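import Mathlib
import Pool.Agent.H4R2.Ham
import Pool.Agent.TH64.PerComb

set_option autoImplicit false
set_option linter.unusedSectionVars false

open scoped BigOperators Topology
open Finset Filter
open Pool.Agent.H4R2
open Pool.Agent.TH64.PerNet

namespace Pool.Agent.Results.MP_0f69bf_mp.PeriodicMarginals

/-- Translation invariance up to a phase. -/
def TransInv {d L : ℕ} [NeZero L] (ψ : (Site L → Fin d) → ℂ) : Prop :=
  ∀ u : Site L, ∃ c : ℂ, (fun s => ψ (fun v => s (v + u))) = c • ψ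

/-- For large system sizes with the same value of `σ` the marginals on `R` agree up to `δ`. -/
def CloseAlong {d : ℕ} {J : Type} (σ : ℕ → J) (R : Finset (ℤ × ℤ))
    (ψ : ∀ (L : ℕ) [NeZero L], (Site L → Fin d) → ℂ) (δ : ℝ) : Prop :=
  ∃ L₂ : ℕ, ∀ (L L' : ℕ) [NeZero L] [NeZero L'], L₂ ≤ L → L₂ ≤ L' → σ L = σ L' →
    ∀ a b, ‖redState R (ψ L) a b - redState R (ψ L') a b‖ ≤ δ

/-- One translationally invariant PEPS tensor of bond dimension `D` gives all marginals on `R` for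
large system sizes up to `ε` in trace norm. -/
def Approximable {d : ℕ} (R : Finset (ℤ × ℤ)) (ψ : ∀ (L : ℕ) [NeZero L], (Site L → Fin d) → ℂ)
    (ε : ℝ) (D : ℕ) : Prop :=
  ∃ A : Tensor d D, ∃ L₁ : ℕ, ∀ (L : ℕ) [NeZero L], L₁ ≤ L → contract A L ≠ 0 ∧
    traceNorm (redState R (ψ L) - redState R (contract A L)) ≤ ε

lemma transInv_of_ground {d L : ℕ} [NeZero L] (B : Finset (ℤ × ℤ))
    (h : Matrix (B → Fin d) (B → Fin d) ℂ) (Δ : ℝ) (ψ : (Site L → Fin d) → ℂ)
    (hψ : IsGappedGround (ham B h L) Δ ψ) : TransInv ψ := by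
  intro u
  obtain ⟨E, h1, h2, _⟩ := hψ
  exact h2 _ (ham_eigen_shift B h u ψ E h1)

instance side_neZero (d : ℕ) (R : Finset (ℤ × ℤ)) (ε : ℝ) : NeZero (side d R ε) :=
  ⟨by unfold side; omega⟩

/-- Block states: the marginals of one normalised translation invariant state are reproduced for
all large system sizes. -/
theorem block_approx (d : ℕ) (hd : 2 ≤ d) (R : Finset (ℤ × ℤ)) (ε : ℝ) (hε : 0 < ε) :
    ∃ L₀ : ℕ, ∀ (L : ℕ) [NeZero L], L₀ ≤ L → ∀ ψ : (Site L → Fin d) → ℂ, normSq ψ = 1 →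
      TransInv ψ → ∃ Φ : (Fin (side d R ε) × Fin (side d R ε) → Fin d) → ℂ, normSq Φ = 1 ∧
        ∀ (L' : ℕ) [NeZero L'], L₀ ≤ L' →
        0 < normSq (contract (tens hd Φ) L') ∧ ∀ a b,
          ‖redState R (contract (tens hd Φ) L') a b - redState R ψ a b‖
            ≤ ε / (2 * ((d : ℝ) ^ R.card) ^ 2) := by
  classical
  set M := side d R ε with hM
  have hM1 : 2 * R.card + 2 ≤ M := by rw [hM]; unfold side; omega
  have hM2 : 2 * rad R + 2 ≤ M := by rw [hM]; unfold side; omega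
  have hM3 : 16 * ((rad R : ℝ) + 2) * (d : ℝ) ^ (2 * R.card) / ε ≤ M := by
    refine (Nat.le_ceil _).trans ?_
    rw [hM]; unfold side
    push_cast
    have : (0 : ℝ) ≤ 2 * (R.card : ℝ) + 2 * rad R + 2 := by positivity
    linarith
  refine ⟨(M + 2) * (M + 2) + (M + 3) * R.card + 1, ?_⟩
  intro L _ hL ψ hψ hT
  let x : R → ℤ × ℤ := fun y => y
  have hr : ∀ i, |(x i).1| ≤ (rad R : ℕ) ∧ |(x i).2| ≤ (rad R : ℕ) := by
    intro i
    have h1 : max (x i).1.natAbs (x i).2.natAbs ≤ rad R :=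
      Finset.le_sup (f := fun x : ℤ × ℤ => max x.1.natAbs x.2.natAbs) i.2
    constructor
    · rw [Int.abs_eq_natAbs]; exact_mod_cast (le_max_left _ _).trans h1
    · rw [Int.abs_eq_natAbs]; exact_mod_cast (le_max_right _ _).trans h1
  obtain ⟨Φ, hΦ, hΦ2⟩ := exists_block hd ψ hψ x (rad R) hr
    (by rw [Fintype.card_coe]; exact hM1) hM2 (by nlinarith)
    (fun u a b => rdm_shift ψ hψ hT (fun i => toTorus L (x i)) u a b)
  refine ⟨Φ, hΦ, ?_⟩
  intro L' _ hL'
  obtain ⟨h1, h2⟩ := block_main (L := L') hd Φ hΦ x (rad R) hr (Finset.Ico (rad R) (M - 1 - rad R))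
    (fun k hk => by rw [Finset.mem_Ico] at hk; omega)
    (by rw [Finset.nonempty_Ico]; omega) (by nlinarith)
    (by rw [Fintype.card_coe]; nlinarith)
  refine ⟨h1, fun a b => ?_⟩
  have h3 := h2 a b
  rw [hΦ2 a b] at h3
  unfold redState
  simp only [Matrix.smul_apply, smul_eq_mul]
  rw [hψ]
  simp only [Complex.ofReal_one, inv_one, one_mul]
  refine h3.trans ?_
  rw [Nat.card_Ico]
  have h4 : ((M - 1 - rad R - rad R : ℕ) : ℝ) = (M : ℝ) - 1 - rad R - rad R := by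
    rw [Nat.cast_sub (by omega), Nat.cast_sub (by omega), Nat.cast_sub (by omega)]
    simp
  rw [h4]
  have hM0 : (0 : ℝ) < (M : ℝ) + 3 := by positivity
  have h5 : 4 * (1 - ((M : ℝ) - 1 - rad R - rad R) / (M + 3)) = 8 * ((rad R : ℝ) + 2) / (M + 3) := by
    field_simp
    ring
  rw [h5]
  have hdp : (0 : ℝ) < (d : ℝ) ^ R.card := by
    have : (0 : ℝ) < d := by exact_mod_cast (by omega : 0 < d)
    positivity
  rw [div_le_div_iff₀ hM0 (by positivity)]
  rw [div_le_iff₀ hε] at hM3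
  have h6 : (d : ℝ) ^ (2 * R.card) = ((d : ℝ) ^ R.card) ^ 2 := by
    rw [← pow_mul]; congr 1; ring
  rw [h6] at hM3
  nlinarith

lemma traceNorm_le' {d : ℕ} (R : Finset (ℤ × ℤ)) (hd : 2 ≤ d) (X : Matrix (R → Fin d) (R → Fin d) ℂ)
    (ε : ℝ) (hε : 0 < ε) (h : ∀ a b, ‖X a b‖ ≤ ε / ((d : ℝ) ^ R.card) ^ 2) : traceNorm X ≤ ε := by
  have hdp : (0 : ℝ) < (d : ℝ) ^ R.card := by
    have : (0 : ℝ) < d := by exact_mod_cast (by omega : 0 < d)
    positivity
  refine (traceNorm_le X _ (by positivity) h).trans ?_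
  simp only [Fintype.card_pi, Fintype.card_fin, prod_const, card_univ, Fintype.card_coe]
  push_cast
  rw [mul_div_cancel₀]
  positivity

/-- a default block state -/
lemma exists_unit (d : ℕ) (hd : 2 ≤ d) (M : ℕ) :
    ∃ Φ : (Fin M × Fin M → Fin d) → ℂ, normSq Φ = 1 := by
  classical
  refine ⟨Pi.single (fun _ => ⟨0, by omega⟩) 1, ?_⟩
  unfold normSq
  rw [Finset.sum_eq_single (fun _ => (⟨0, by omega⟩ : Fin d))]
  · simp
  · intro s _ hs
    rw [Pi.single_eq_of_ne hs]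
    simp
  · intro hc; exact absurd (Finset.mem_univ _) hc

/-- The general principle: if the dependence of the marginals on `L` is followed by scalar
networks, one translationally invariant tensor suffices. -/
theorem follow (d : ℕ) (hd : 2 ≤ d) (R : Finset (ℤ × ℤ)) (ε : ℝ) (hε : 0 < ε)
    (B : Finset (ℤ × ℤ)) (h : Matrix (B → Fin d) (B → Fin d) ℂ)
    (ψ : ∀ (L : ℕ) [NeZero L], (Site L → Fin d) → ℂ) (hgap : GappedFamily B h ψ)
    (J : Type) [Fintype J] (σ : ℕ → J) (D : ℕ) (hσ : Followed σ D)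
    (hc : CloseAlong σ R ψ (ε / (4 * ((d : ℝ) ^ R.card) ^ 2))) :
    Approximable R ψ ε (Fintype.card J * (bondDim d R ε * D)) := by
  classical
  obtain ⟨L₀, hL₀⟩ := block_approx d hd R ε hε
  obtain ⟨Δ, _, L₁, hL₁⟩ := hgap
  obtain ⟨L₂, hL₂⟩ := hc
  obtain ⟨W, hW⟩ := hσ
  have hdp : (0 : ℝ) < (d : ℝ) ^ R.card := by
    have : (0 : ℝ) < d := by exact_mod_cast (by omega : 0 < d)
    positivity
  set M := side d R ε with hM
  -- a reference size for every value that is taken by arbitrarily large sizes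
  set K₀ := max L₀ (max L₁ L₂) + 1 with hK₀
  have href : ∀ j : J, ∃ Φ : (Fin M × Fin M → Fin d) → ℂ, normSq Φ = 1 ∧
      ∀ (L : ℕ) [NeZero L], K₀ ≤ L → σ L = j → ∀ (L' : ℕ) [NeZero L'], L₀ ≤ L' →
        ∀ a b, ‖redState R (contract (tens hd Φ) L') a b - redState R (ψ L) a b‖
            ≤ ε / (4 * ((d : ℝ) ^ R.card) ^ 2) + ε / (2 * ((d : ℝ) ^ R.card) ^ 2) := by
    intro j
    by_cases hj : ∃ K, K₀ ≤ K ∧ σ K = j
    · obtain ⟨K, hK1, hK2⟩ := hj
      have : NeZero K := ⟨by omega⟩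
      obtain ⟨h1, h2⟩ := hL₁ K (by omega)
      obtain ⟨Φ, hΦ, hΦ2⟩ := hL₀ K (by omega) (ψ K) h1 (transInv_of_ground B h Δ (ψ K) h2)
      refine ⟨Φ, hΦ, fun L _ hL hσL L' _ hL' a b => ?_⟩
      have h3 := (hΦ2 L' hL').2 a b
      have h4 := hL₂ K L (by omega) (by omega) (by rw [hK2, hσL]) a b
      have h5 : redState R (contract (tens hd Φ) L') a b - redState R (ψ L) a b =
          (redState R (ψ K) a b - redState R (ψ L) a b) +
          (redState R (contract (tens hd Φ) L') a b - redState R (ψ K) a b) := by ring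
      rw [h5]
      exact (norm_add_le _ _).trans (add_le_add h4 h3)
    · obtain ⟨Φ, hΦ⟩ := exists_unit d hd M
      exact ⟨Φ, hΦ, fun L _ hL hσL => absurd ⟨L, hL, hσL⟩ hj⟩
  choose Φ hΦ1 hΦ2 using href
  -- the tensor
  have hcard : Fintype.card (Lab d M) = bondDim d R ε := by
    unfold bondDim
    rw [← hM]
    simp only [Fintype.card_prod, Fintype.card_fin, Fintype.card_pi, prod_const, card_univ]
    ring
  have hcard2 : Fintype.card (J × Lab d M × Fin D) = Fintype.card J * (bondDim d R ε * D) := by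
    rw [Fintype.card_prod, Fintype.card_prod, hcard, Fintype.card_fin]
  obtain ⟨e⟩ : Nonempty (Fin (Fintype.card J * (bondDim d R ε * D)) ≃ (J × Lab d M × Fin D)) := by
    rw [← hcard2]
    exact ⟨(Fintype.equivFin _).symm⟩
  set C := comb (fun j => tens hd (Φ j)) W with hC
  have hJ0 : (0 : ℝ) ≤ Fintype.card J := Nat.cast_nonneg _
  set κ : ℝ := min (1 / 6) (ε / (24 * ((d : ℝ) ^ R.card) ^ 2)) / (Fintype.card J + 1) with hκ
  have hm0 : 0 < min (1 / 6) (ε / (24 * ((d : ℝ) ^ R.card) ^ 2)) := lt_min (by norm_num) (by positivity)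
  have hκ0 : 0 < κ := by rw [hκ]; positivity
  have hκ1 : (Fintype.card J : ℝ) * κ ≤ min (1 / 6) (ε / (24 * ((d : ℝ) ^ R.card) ^ 2)) := by
    rw [hκ, mul_div_assoc', div_le_iff₀ (by positivity)]
    nlinarith
  obtain ⟨L₃, hL₃⟩ := hW κ hκ0
  refine ⟨fun s l r u n => C s (e l) (e r) (e u) (e n), K₀ + L₃, fun L _ hL => ?_⟩
  have hcon : contract (fun s l r u n => C s (e l) (e r) (e u) (e n)) L = contract C L := by
    funext s
    exact contract_equiv e _ _ _
  rw [hcon]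
  obtain ⟨hr, hdom⟩ := hL₃ L (by omega)
  have hν0 : (0 : ℝ) < (Fintype.card (Pat M L) : ℝ) ^ 2 := by
    have h1 := hL₀ L (by omega)
    have h2 := (hL₁ L (by omega))
    obtain ⟨Φ', hΦ', h3⟩ := h1 (ψ L) h2.1 (transInv_of_ground B h Δ (ψ L) h2.2)
    have h4 := (h3 L (by omega)).1
    rwa [normSq_contract hd Φ' hΦ'] at h4
  obtain ⟨h1, h2⟩ := comb_close (fun j => tens hd (Φ j)) W L (σ L) _ hν0
    (fun j => normSq_contract hd (Φ j) (hΦ1 j)) hr κ hκ0 (hκ1.trans (min_le_left _ _)) hdom R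
  refine ⟨?_, traceNorm_le' R hd _ ε hε fun a b => ?_⟩
  · intro h0
    rw [← hC] at h1
    rw [h0] at h1
    simp [normSq] at h1
  · have h3 := h2 a b
    have h4 := hΦ2 (σ L) L (by omega) rfl L (by omega) a b
    have h5 : redState R (ψ L) a b - redState R (contract C L) a b =
        -((redState R (contract C L) a b - redState R (contract (tens hd (Φ (σ L))) L) a b) +
        (redState R (contract (tens hd (Φ (σ L))) L) a b - redState R (ψ L) a b)) := by ring
    rw [Matrix.sub_apply, h5, norm_neg]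
    refine (norm_add_le _ _).trans ((add_le_add h3 h4).trans ?_)
    have h6 : 6 * ((Fintype.card J : ℝ) * κ) ≤ 6 * (ε / (24 * ((d : ℝ) ^ R.card) ^ 2)) :=
      mul_le_mul_of_nonneg_left (hκ1.trans (min_le_right _ _)) (by norm_num)
    have h7 : 6 * (ε / (24 * ((d : ℝ) ^ R.card) ^ 2)) + (ε / (4 * ((d : ℝ) ^ R.card) ^ 2) +
        ε / (2 * ((d : ℝ) ^ R.card) ^ 2)) = ε / ((d : ℝ) ^ R.card) ^ 2 := by
      field_simp
      ring
    linarith

/-- Local approximation by one translationally invariant PEPS tensor when the marginals depend on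
the system size. -/
theorem result (d : ℕ) (hd : 2 ≤ d) (B : Finset (ℤ × ℤ)) (h : Matrix (B → Fin d) (B → Fin d) ℂ)
    (ψ : ∀ (L : ℕ) [NeZero L], (Site L → Fin d) → ℂ) (_ : h.IsHermitian)
    (hgap : GappedFamily B h ψ) (R : Finset (ℤ × ℤ)) :
    -- (1) the dependence on `L` is followed by scalar networks
    (∀ ε : ℝ, 0 < ε → ∀ (J : Type) [Fintype J] (σ : ℕ → J) (D : ℕ), Followed σ D →
      CloseAlong σ R ψ (ε / (4 * ((d : ℝ) ^ R.card) ^ 2)) →
      Approximable R ψ ε (Fintype.card J * (bondDim d R ε * D))) ∧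
    -- (2) eventually almost periodic with period `q`
    (∀ ε : ℝ, 0 < ε → ∀ q : ℕ, 0 < q →
      CloseAlong (fun L => L % q) R ψ (ε / (4 * ((d : ℝ) ^ R.card) ^ 2)) →
      Approximable R ψ ε (q ^ 2 * bondDim d R ε)) ∧
    -- (3) asymptotically limit periodic
    ((∀ δ : ℝ, 0 < δ → ∃ q : ℕ, 0 < q ∧ CloseAlong (fun L => L % q) R ψ δ) →
      ∀ ε : ℝ, 0 < ε → ∃ D : ℕ, Approximable R ψ ε D) := by
  have h2 : ∀ ε : ℝ, 0 < ε → ∀ q : ℕ, 0 < q →
      CloseAlong (fun L => L % q) R ψ (ε / (4 * ((d : ℝ) ^ R.card) ^ 2)) →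
      Approximable R ψ ε (q ^ 2 * bondDim d R ε) := by
    intro ε hε q hq hc
    have : NeZero q := ⟨by omega⟩
    have h3 := follow d hd R ε hε B h ψ hgap (ZMod q) (fun L : ℕ => (L : ZMod q)) q
      (followed_residue q) (by
        obtain ⟨L₂, hL₂⟩ := hc
        refine ⟨L₂, fun L L' _ _ h1 h2 h3 => hL₂ L L' h1 h2 ?_⟩
        exact (ZMod.natCast_eq_natCast_iff' _ _ _).mp h3)
    have h4 : Fintype.card (ZMod q) * (bondDim d R ε * q) = q ^ 2 * bondDim d R ε := by
      rw [ZMod.card]; ring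
    rwa [h4] at h3
  refine ⟨fun ε hε J _ σ D hσ hc => follow d hd R ε hε B h ψ hgap J σ D hσ hc, h2, ?_⟩
  intro hlp ε hε
  have hdp : (0 : ℝ) < (d : ℝ) ^ R.card := by
    have : (0 : ℝ) < d := by exact_mod_cast (by omega : 0 < d)
    positivity
  obtain ⟨q, hq, hc⟩ := hlp (ε / (4 * ((d : ℝ) ^ R.card) ^ 2)) (by positivity)
  exact ⟨_, h2 ε hε q hq hc⟩

end Pool.Agent.Results.MP_0f69bf_mp.PeriodicMarginals
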