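import Mathlib
import Pool.Agent.TH64.NoGoGhz

set_option autoImplicit false
set_option linter.unusedSectionVars false

open scoped BigOperators Topology
open Finset Filter
open Pool.Agent.H4R2
open Pool.Agent.TH64.NoGo

namespace Pool.Agent.Results.MP_0f69bf_mp.SizeDependentNoGo

/-- On the `L × L` torus the tensor `A` gives a non-zero vector, and its one-site marginal is that
of the product state `b ⊗ … ⊗ b` up to `δ` in trace norm. -/
def Good {d D : ℕ} (δ : ℝ) (b : Fin d) (A : Tensor d D) (L : ℕ) [NeZero L] : Prop :=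
  contract A L ≠ 0 ∧ traceNorm (redState R0 (prodSt b L) - redState R0 (contract A L)) ≤ δ

lemma normSq_pos {S : Type*} [Fintype S] (φ : S → ℂ) (h : φ ≠ 0) : 0 < normSq φ := by
  obtain ⟨s, hs⟩ : ∃ s, φ s ≠ 0 := by
    by_contra hc
    push Not at hc
    exact h (funext hc)
  unfold normSq
  refine Finset.sum_pos' (fun _ _ => by positivity) ⟨s, Finset.mem_univ s, ?_⟩
  have := norm_pos_iff.mpr hs
  positivity

/-- Finite version: a window of sizes with a bad pattern. -/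
theorem window (d D : ℕ) (hd : 2 ≤ d) (c : ℝ) (hc : 0 < c) (I : Finset ℕ)
    (hI : (((∑ k ∈ I, 2 * (k + 1) ^ 2 : ℕ) : ℝ) + 1) ^ (2 * (d * D ^ 4)) < (1 + c ^ 2) ^ I.card) :
    ∃ τ : ℕ → Bool, ∀ A : Tensor d D, ∃ k ∈ I, ¬ Good (1 - c) (bit hd (τ k)) A (k + 1) := by
  classical
  by_contra hcon
  push Not at hcon
  have h1 : ∀ x : I → Bool, ∃ A : Tensor d D, ∀ i : I, Good (1 - c) (bit hd (x i)) A (i.1 + 1) := by
    intro x
    obtain ⟨A, hA⟩ := hcon (fun k => if h : k ∈ I then x ⟨k, h⟩ else false)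
    refine ⟨A, fun i => ?_⟩
    have h2 := hA i.1 i.2
    rw [dif_pos i.2] at h2
    exact h2
  choose A hA using h1
  have h2 := core (ι := I) (fun i => i.1) c hc (bit hd true) A
    (fun i x => normSq_pos _ (hA x i).1)
    (fun i x => corr hd (x i) _ (normSq_pos _ (hA x i).1) c (hA x i).2)
  rw [Fintype.card_coe, Finset.sum_coe_sort I (fun k => 2 * (k + 1) ^ 2)] at h2
  exact absurd hI (not_lt.mpr h2)

/-- Long windows, far away, satisfy the inequality. -/
lemma exists_win (m b s k : ℕ) (r : ℝ) (hr : 1 < r) :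
    ∃ a l : ℕ, b ≤ a ∧ 1 ≤ l ∧ (s + l) * (k + 1) ≤ a ∧
      (((∑ j ∈ Finset.Ico a (a + l), 2 * (j + 1) ^ 2 : ℕ) : ℝ) + 1) ^ m < r ^ l := by
  have h1 := tendsto_pow_const_div_const_pow_of_one_lt (4 * m) hr
  have hr0 : 0 < r := by linarith
  set C : ℕ := (s + 2) * (k + 1) + b + 2 with hC
  have hC0 : (0 : ℝ) < C := by
    have : 0 < C := by omega
    exact_mod_cast this
  have h2 : 0 < ((C : ℝ) ^ (4 * m))⁻¹ := by positivity
  obtain ⟨N, hN⟩ := (eventually_atTop.mp (h1.eventually (gt_mem_nhds h2)))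
  set n := N + 1 with hn
  have h3 := hN n (by omega)
  refine ⟨(s + n) * (k + 1) + b, n, by omega, by omega, by omega, ?_⟩
  set a := (s + n) * (k + 1) + b with ha
  have h4 : a + n + 1 ≤ C * n := by
    have e1 : s + n ≤ (s + 1) * n := by nlinarith
    have e2 : (s + n) * (k + 1) ≤ (s + 1) * n * (k + 1) := Nat.mul_le_mul_right _ e1
    have e3 : b ≤ b * n := Nat.le_mul_of_pos_right b (by omega)
    have e4 : C * n = (s + 1) * n * (k + 1) + (k + 1) * n + b * n + 2 * n := by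
      rw [hC]; ring
    have e5 : 0 ≤ (k + 1) * n := Nat.zero_le _
    omega
  have h5 : ∑ j ∈ Finset.Ico a (a + n), 2 * (j + 1) ^ 2 ≤ 2 * (a + n) ^ 3 := by
    calc ∑ j ∈ Finset.Ico a (a + n), 2 * (j + 1) ^ 2 ≤ ∑ j ∈ Finset.Ico a (a + n), 2 * (a + n) ^ 2 := by
          refine Finset.sum_le_sum fun j hj => ?_
          rw [Finset.mem_Ico] at hj
          have : j + 1 ≤ a + n := by omega
          exact Nat.mul_le_mul_left 2 (Nat.pow_le_pow_left this 2)
      _ = n * (2 * (a + n) ^ 2) := by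
          rw [Finset.sum_const, Nat.card_Ico, smul_eq_mul, Nat.add_sub_cancel_left]
      _ ≤ (a + n) * (2 * (a + n) ^ 2) := Nat.mul_le_mul_right _ (by omega)
      _ = 2 * (a + n) ^ 3 := by ring
  have h6 : (∑ j ∈ Finset.Ico a (a + n), 2 * (j + 1) ^ 2) + 1 ≤ (C * n) ^ 4 := by
    have e1 : 2 * (a + n) ^ 3 + 1 ≤ (a + n + 1) ^ 4 := by
      have : (a + n + 1) ^ 4 = (a + n) ^ 4 + 4 * (a + n) ^ 3 + 6 * (a + n) ^ 2 + 4 * (a + n) + 1 := by
        ring
      rw [this]
      have e0 : 0 ≤ (a + n) ^ 4 := Nat.zero_le _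
      have e3 : 0 ≤ (a + n) ^ 3 := Nat.zero_le _
      have e2 : 0 ≤ (a + n) ^ 2 := Nat.zero_le _
      omega
    have e2 : (a + n + 1) ^ 4 ≤ (C * n) ^ 4 := Nat.pow_le_pow_left h4 4
    omega
  have h7 : ((∑ j ∈ Finset.Ico a (a + n), 2 * (j + 1) ^ 2 : ℕ) : ℝ) + 1 ≤ ((C : ℝ) * n) ^ 4 := by
    exact_mod_cast h6
  calc (((∑ j ∈ Finset.Ico a (a + n), 2 * (j + 1) ^ 2 : ℕ) : ℝ) + 1) ^ m
      ≤ (((C : ℝ) * n) ^ 4) ^ m := pow_le_pow_left₀ (by positivity) h7 m
    _ = (C : ℝ) ^ (4 * m) * (n : ℝ) ^ (4 * m) := by rw [← pow_mul, mul_pow]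
    _ < r ^ n := by
        rw [div_lt_iff₀ (by positivity)] at h3
        have e1 := mul_lt_mul_of_pos_left h3 (show (0 : ℝ) < (C : ℝ) ^ (4 * m) by positivity)
        refine e1.trans_eq ?_
        rw [← mul_assoc, mul_inv_cancel₀ (by positivity), one_mul]

/-- One sparse pattern defeats all bond dimensions and all accuracies better than `1`. -/
theorem pattern (d : ℕ) (hd : 2 ≤ d) :
    ∃ σ : ℕ → Bool, (∀ η : ℝ, 0 < η → ∃ N₀ : ℕ, ∀ N : ℕ, N₀ ≤ N →
        (((Finset.range N).filter (fun L => σ L = true)).card : ℝ) ≤ η * N) ∧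
      ∀ δ : ℝ, δ < 1 → ∀ (D : ℕ) (A : Tensor d D) (L₁ : ℕ),
      ∃ L : ℕ, ∃ _ : NeZero L, L₁ ≤ L ∧ ¬ Good δ (bit hd (σ L)) A L := by
  classical
  -- the windows
  have hW : ∀ k b s : ℕ, ∃ a l : ℕ, b ≤ a ∧ 1 ≤ l ∧ (s + l) * (k + 1) ≤ a ∧
      (((∑ j ∈ Finset.Ico a (a + l), 2 * (j + 1) ^ 2 : ℕ) : ℝ) + 1) ^
        (2 * (d * (Nat.unpair k).1 ^ 4)) < (1 + ((1 : ℝ) / (k + 1)) ^ 2) ^ l := by
    intro k b s
    apply exists_win
    have : (0 : ℝ) < ((1 : ℝ) / (k + 1)) ^ 2 := by positivity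
    linarith
  choose fa fl hf1 hf2 hf3 hf4 using hW
  let st : ℕ → ℕ × ℕ := fun k => Nat.rec (motive := fun _ => ℕ × ℕ) (0, 0)
    (fun j p => (fa j p.1 p.2 + fl j p.1 p.2, p.2 + fl j p.1 p.2)) k
  let a : ℕ → ℕ := fun k => fa k (st k).1 (st k).2
  let l : ℕ → ℕ := fun k => fl k (st k).1 (st k).2
  have hst1 : ∀ k, (st (k + 1)).1 = a k + l k := fun k => rfl
  have hst2 : ∀ k, (st (k + 1)).2 = (st k).2 + l k := fun k => rfl
  have ha1 : ∀ k, (st k).1 ≤ a k := fun k => hf1 _ _ _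
  have hl1 : ∀ k, 1 ≤ l k := fun k => hf2 _ _ _
  have hsa : ∀ k, (st (k + 1)).2 * (k + 1) ≤ a k := fun k => by
    rw [hst2]; exact hf3 _ _ _
  have hsucc : ∀ k, a k + l k ≤ a (k + 1) := fun k => by
    rw [← hst1]; exact ha1 (k + 1)
  have hmono : StrictMono a := by
    apply strictMono_nat_of_lt_succ
    intro k
    have h1 := hsucc k
    have h2 := hl1 k
    omega
  have hge : ∀ k, k ≤ a k := fun k => hmono.id_le k
  have hpos : ∀ k, 1 ≤ a k := by
    intro k
    have h1 := hsa k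
    have h2 := hl1 k
    have h3 : 1 ≤ (st (k + 1)).2 := by rw [hst2]; omega
    have h4 : 1 * 1 ≤ (st (k + 1)).2 * (k + 1) := Nat.mul_le_mul h3 (by omega)
    omega
  have hS : ∀ K, (st K).2 = ∑ j ∈ Finset.range K, l j := by
    intro K
    induction K with
    | zero => rfl
    | succ K ih => rw [hst2, ih, Finset.sum_range_succ]
  have hwin : ∀ k : ℕ, ∃ τ : ℕ → Bool, ∀ D : ℕ, (Nat.unpair k).1 = D → ∀ A : Tensor d D,
      ∃ j ∈ Finset.Ico (a k) (a k + l k), ¬ Good (1 - (1 : ℝ) / (k + 1)) (bit hd (τ j)) A (j + 1) := by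
    intro k
    obtain ⟨τ, hτ⟩ := window d (Nat.unpair k).1 hd ((1 : ℝ) / (k + 1)) (by positivity)
      (Finset.Ico (a k) (a k + l k)) (by
        rw [Nat.card_Ico, Nat.add_sub_cancel_left]
        exact hf4 k _ _)
    refine ⟨τ, ?_⟩
    rintro D rfl A
    exact hτ A
  choose τ hτ using hwin
  let g : ℕ → ℕ := fun j => Nat.findGreatest (fun k : ℕ => a k ≤ j) j
  have hg : ∀ k j, a k ≤ j → j < a k + l k → g j = k := by
    intro k j h1 h2
    simp only [g]
    rw [Nat.findGreatest_eq_iff]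
    refine ⟨by have := hge k; omega, fun _ => h1, fun n hn _ => ?_⟩
    have h3 : a (k + 1) ≤ a n := hmono.monotone (show k + 1 ≤ n by omega)
    have h4 := hsucc k
    omega
  let σ : ℕ → Bool := fun L : ℕ =>
    if a (g (L - 1)) ≤ L - 1 ∧ L - 1 < a (g (L - 1)) + l (g (L - 1)) then τ (g (L - 1)) (L - 1)
    else false
  refine ⟨σ, ?_, ?_⟩
  · -- density zero
    intro η hη
    obtain ⟨k₀, hk₀⟩ := exists_nat_gt ((1 : ℝ) / η)
    refine ⟨a k₀, fun N hN => ?_⟩
    set K := Nat.findGreatest (fun i : ℕ => a i ≤ N) N with hK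
    have hKN : a K ≤ N := Nat.findGreatest_spec (P := fun i : ℕ => a i ≤ N)
      (show k₀ ≤ N by have := hge k₀; omega) hN
    have hkK : k₀ ≤ K := Nat.le_findGreatest (by have := hge k₀; omega) hN
    have hbig : ∀ i, K < i → N < a i := by
      intro i hi
      by_cases hiN : i ≤ N
      · have h1 := Nat.findGreatest_is_greatest (P := fun i : ℕ => a i ≤ N) hi hiN
        exact not_le.mp h1
      · have := hge i
        omega
    have hsub : (Finset.range N).filter (fun L => σ L = true) ⊆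
        (Finset.range (K + 1)).biUnion (fun j => (Finset.Ico (a j) (a j + l j)).image (fun i => i + 1)) := by
      intro L hL
      rw [Finset.mem_filter, Finset.mem_range] at hL
      obtain ⟨hLN, hσ⟩ := hL
      have hw : a (g (L - 1)) ≤ L - 1 ∧ L - 1 < a (g (L - 1)) + l (g (L - 1)) := by
        by_contra hc
        simp only [σ, if_neg hc] at hσ
        exact Bool.false_ne_true hσ
      rw [Finset.mem_biUnion]
      refine ⟨g (L - 1), ?_, ?_⟩
      · rw [Finset.mem_range]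
        by_contra hc
        have h1 := hbig (g (L - 1)) (by omega)
        omega
      · rw [Finset.mem_image]
        refine ⟨L - 1, by rw [Finset.mem_Ico]; exact hw, ?_⟩
        have := hpos (g (L - 1))
        omega
    have hcard : ((Finset.range N).filter (fun L => σ L = true)).card ≤ (st (K + 1)).2 := by
      refine (Finset.card_le_card hsub).trans (Finset.card_biUnion_le.trans ?_)
      refine le_trans (Finset.sum_le_sum fun j _ => ?_) (hS (K + 1)).ge
      refine Finset.card_image_le.trans ?_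
      rw [Nat.card_Ico]
      omega
    have h1 : (st (K + 1)).2 * (K + 1) ≤ N := (hsa K).trans hKN
    have h2 : (((Finset.range N).filter (fun L => σ L = true)).card : ℝ) * (K + 1) ≤ N := by
      have h3 : ((Finset.range N).filter (fun L => σ L = true)).card * (K + 1) ≤ N :=
        (Nat.mul_le_mul_right _ hcard).trans h1
      exact_mod_cast h3
    have hK1 : (0 : ℝ) < (K : ℝ) + 1 := by positivity
    have h4 : (1 : ℝ) / η < (K : ℝ) + 1 := by
      have : (k₀ : ℝ) ≤ K := by exact_mod_cast hkK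
      linarith
    rw [div_lt_iff₀ hη] at h4
    have hc0 : (0 : ℝ) ≤ (((Finset.range N).filter (fun L => σ L = true)).card : ℝ) := Nat.cast_nonneg _
    have hN0 : (0 : ℝ) ≤ N := Nat.cast_nonneg _
    calc (((Finset.range N).filter (fun L => σ L = true)).card : ℝ)
        ≤ (((Finset.range N).filter (fun L => σ L = true)).card : ℝ) * (((K : ℝ) + 1) * η) :=
          le_mul_of_one_le_right hc0 h4.le
      _ = η * ((((Finset.range N).filter (fun L => σ L = true)).card : ℝ) * (K + 1)) := by ring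
      _ ≤ η * N := mul_le_mul_of_nonneg_left h2 hη.le
  · intro δ hδ D A L₁
    obtain ⟨i, hi⟩ := exists_nat_gt ((1 : ℝ) / (1 - δ))
    set k := Nat.pair D (i + L₁) with hk
    have hki : i + L₁ ≤ k := Nat.right_le_pair D (i + L₁)
    obtain ⟨j, hj, hbad⟩ := hτ k D (by rw [hk, Nat.unpair_pair]) A
    rw [Finset.mem_Ico] at hj
    refine ⟨j + 1, inferInstance, by have := hge k; omega, ?_⟩
    intro hgood
    apply hbad
    have hσj : σ (j + 1) = τ k j := by
      simp only [σ, Nat.add_sub_cancel]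
      rw [hg k j hj.1 hj.2, if_pos hj]
    rw [hσj] at hgood
    refine ⟨hgood.1, hgood.2.trans ?_⟩
    have h1 : (0 : ℝ) < 1 - δ := by linarith
    have h2 : (i : ℝ) ≤ k := by
      have : i ≤ k := by omega
      exact_mod_cast this
    have h3 : (1 : ℝ) / (k + 1) ≤ 1 - δ := by
      rw [div_le_iff₀ (by positivity)]
      rw [div_lt_iff₀ h1] at hi
      nlinarith
    linarith

/-- Q1 fails, sharply, if the Hamiltonian may depend on the system size or if the ground state is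
not unique: no translationally invariant PEPS of any bond dimension follows an arbitrary
dependence of the state on the system size. -/
theorem result (d : ℕ) (hd : 2 ≤ d) :
    -- two one-site interactions: unique ground states `0 ⊗ … ⊗ 0` and `1 ⊗ … ⊗ 1`, gap `1`
    (∀ (b : Bool) (L : ℕ) [NeZero L], (loc (bit hd b)).IsHermitian ∧
      normSq (prodSt (bit hd b) L) = 1 ∧
      IsGappedGround (ham R0 (loc (bit hd b)) L) 1 (prodSt (bit hd b) L)) ∧
    -- one three-site interaction: the two product states span the ground space, gap `1`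
    ((ising hd).IsHermitian ∧ ∀ (L : ℕ) [NeZero L],
      (∀ b : Bool, (ham B3 (ising hd) L).mulVec (prodSt (bit hd b) L) = 0) ∧
      (∀ φ : (Site L → Fin d) → ℂ, (ham B3 (ising hd) L).mulVec φ = 0 →
        ∃ c₀ c₁ : ℂ, φ = c₀ • prodSt (bit hd false) L + c₁ • prodSt (bit hd true) L) ∧
      (∀ (E : ℝ) (φ : (Site L → Fin d) → ℂ), φ ≠ 0 →
        (ham B3 (ising hd) L).mulVec φ = (E : ℂ) • φ → E = 0 ∨ 1 ≤ E)) ∧
    -- one pattern, `0` outside a set of sizes of density zero, for which every accuracy better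
    -- than `1` is impossible
    (∃ σ : ℕ → Bool, (∀ η : ℝ, 0 < η → ∃ N₀ : ℕ, ∀ N : ℕ, N₀ ≤ N →
        (((Finset.range N).filter (fun L => σ L = true)).card : ℝ) ≤ η * N) ∧
      ∀ δ : ℝ, δ < 1 → ∀ D : ℕ, ¬ ∃ A : Tensor d D, ∃ L₁ : ℕ,
        ∀ (L : ℕ) [NeZero L], L₁ ≤ L → Good δ (bit hd (σ L)) A L) ∧
    -- for all patterns accuracy `1` is reached by one tensor of bond dimension `2`
    (∃ A : Tensor d 2, ∀ (b : Bool) (L : ℕ) [NeZero L], 2 ≤ L → Good 1 (bit hd b) A L) ∧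
    -- finite sets `I` of sizes: a pattern that needs a large bond dimension
    (∀ (D : ℕ) (c : ℝ), 0 < c → ∀ I : Finset ℕ,
      (((∑ k ∈ I, 2 * (k + 1) ^ 2 : ℕ) : ℝ) + 1) ^ (2 * (d * D ^ 4)) < (1 + c ^ 2) ^ I.card →
      ∃ τ : ℕ → Bool, ∀ A : Tensor d D, ∃ k ∈ I, ¬ Good (1 - c) (bit hd (τ k)) A (k + 1)) := by
  refine ⟨fun b L _ => ⟨loc_herm _, normSq_prodSt _ L, gapped_prodSt _ L⟩,
    ⟨ising_herm hd, fun L _ => ising_ground hd L⟩, ?_,
    ⟨ghz hd, fun b L _ hL => ghz_good hd b L hL⟩,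
    fun D c hc I hI => window d D hd c hc I hI⟩
  obtain ⟨σ, hσ0, hσ⟩ := pattern d hd
  refine ⟨σ, hσ0, fun δ hδ D => ?_⟩
  rintro ⟨A, L₁, hA⟩
  obtain ⟨L, hL0, hL, hbad⟩ := hσ δ hδ D A L₁
  exact hbad (hA L hL)

end Pool.Agent.Results.MP_0f69bf_mp.SizeDependentNoGo
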